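import Pool.Agent.Helper91.LC.Spec

/-!
# Project LC, piece LC-4a: growth of normalised Bloch functions (Bonk)
-/

namespace Pool.Agent.Helper82.LC

open Complex Metric Set
open Pool.Agent.Helper91.LC

theorem growth_aux_lt : (1 : ℝ) / √3 < 1 := by
  have h3 : (0 : ℝ) < √3 := by positivity
  have h31 : (1 : ℝ) < √3 := by
    rw [show (1 : ℝ) = √1 by simp]
    exact Real.sqrt_lt_sqrt (by norm_num) (by norm_num)
  rw [div_lt_one h3]
  exact h31

/-- derivative of the comparison function. -/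
theorem growth_aux_deriv {s : ℝ} (hs : s < 1 / √3) :
    HasDerivAt (fun s : ℝ => s * (1 - 2 * s / √3) / (1 - s / √3) ^ 2)
      ((1 - √3 * s) / (1 - s / √3) ^ 3) s := by
  have h3 : (0 : ℝ) < √3 := by positivity
  have h3s : √3 * √3 = 3 := Real.mul_self_sqrt (by norm_num)
  have hs1 : s < √3 := by
    have h31 : (1 : ℝ) < √3 := by
      rw [show (1 : ℝ) = √1 by simp]
      exact Real.sqrt_lt_sqrt (by norm_num) (by norm_num)
    linarith [growth_aux_lt]
  have hpos : 0 < 1 - s / √3 := by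
    have : s / √3 < 1 := by
      rw [div_lt_one h3]
      exact hs1
    linarith
  obtain ⟨c, hc⟩ : ∃ c : ℝ, c = 1 / √3 := ⟨_, rfl⟩
  have hsq : √3 = 3 * c := by
    rw [hc]
    field_simp
    linarith
  have hfun : (fun s : ℝ => s * (1 - 2 * s / √3) / (1 - s / √3) ^ 2)
      = fun s : ℝ => s * (1 - 2 * s * c) / (1 - s * c) ^ 2 := by
    funext t
    rw [hc]
    ring_nf
  have hpos' : 0 < 1 - s * c := by
    rw [hc]
    have : s * (1 / √3) = s / √3 := by ring
    rw [this]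
    exact hpos
  rw [hfun]
  have e1 : (1 - √3 * s) / (1 - s / √3) ^ 3 = (1 - 3 * c * s) / (1 - s * c) ^ 3 := by
    rw [← hsq, hc]
    ring_nf
  rw [e1]
  have hnum : HasDerivAt (fun s : ℝ => s * (1 - 2 * s * c)) (1 - 4 * c * s) s := by
    have h1 : HasDerivAt (fun s : ℝ => s) 1 s := hasDerivAt_id' s
    have h2 : HasDerivAt (fun s : ℝ => 1 - 2 * s * c) (-(2 * 1 * c)) s :=
      ((h1.const_mul 2).mul_const c).const_sub 1
    have h3' := h1.mul h2
    have : (1 - 4 * c * s) = 1 * (1 - 2 * s * c) + s * (-(2 * 1 * c)) := by ring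
    rw [this]
    exact h3'
  have hden : HasDerivAt (fun s : ℝ => (1 - s * c) ^ 2) (2 * (1 - s * c) * (-c)) s := by
    have h1 : HasDerivAt (fun s : ℝ => s) 1 s := hasDerivAt_id' s
    have h2 : HasDerivAt (fun s : ℝ => 1 - s * c) (-(1 * c)) s :=
      (h1.mul_const c).const_sub 1
    have h3' := h2.pow 2
    have : 2 * (1 - s * c) * (-c) = ((2 : ℕ) : ℝ) * (1 - s * c) ^ (2 - 1) * (-(1 * c)) := by
      norm_num
    rw [this]
    exact h3'
  have hd := hnum.div hden (by positivity)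
  have e2 : (1 - 3 * c * s) / (1 - s * c) ^ 3 =
      ((1 - 4 * c * s) * (1 - s * c) ^ 2 - s * (1 - 2 * s * c) * (2 * (1 - s * c) * (-c))) /
        ((1 - s * c) ^ 2) ^ 2 := by
    rw [div_eq_div_iff (by positivity) (by positivity)]
    ring
  rw [e2]
  exact hd

theorem growth {F : ℂ → ℂ} (hG : Good F) {z : ℂ} (hz : ‖z‖ < 1 / √3) :
    ‖z‖ * (1 - 2 * ‖z‖ / √3) / (1 - ‖z‖ / √3) ^ 2 ≤ ‖F z‖ := by
  rcases eq_or_ne z 0 with rfl | hz0
  · simp
  obtain ⟨x, hx⟩ : ∃ x, x = ‖z‖ := ⟨_, rfl⟩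
  have hx0 : 0 < x := by
    rw [hx]
    exact norm_pos_iff.mpr hz0
  obtain ⟨u, hu⟩ : ∃ u : ℂ, u = z / x := ⟨_, rfl⟩
  have hun : ‖u‖ = 1 := by
    rw [hu, norm_div, Complex.norm_real, Real.norm_of_nonneg hx0.le, ← hx]
    exact div_self hx0.ne'
  have hxc : (x : ℂ) ≠ 0 := by exact_mod_cast hx0.ne'
  have hzu : z = x * u := by
    rw [hu]
    field_simp
  have hnorm : ∀ s : ℝ, 0 ≤ s → ‖(s : ℂ) * u‖ = s := by
    intro s hs
    rw [norm_mul, hun, Complex.norm_real, Real.norm_of_nonneg hs, mul_one]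
  have huu : (starRingEnd ℂ) u * u = 1 := by
    rw [mul_comm, Complex.mul_conj, Complex.normSq_eq_norm_sq, hun]
    simp
  rw [← hx] at hz ⊢
  have key : ∀ s ∈ Icc (0 : ℝ) x, HasDerivAt
      (fun s : ℝ => ((starRingEnd ℂ) u * F ((s : ℂ) * u)).re
        - s * (1 - 2 * s / √3) / (1 - s / √3) ^ 2)
      ((deriv F ((s : ℂ) * u)).re - (1 - √3 * s) / (1 - s / √3) ^ 3) s := by
    intro s hs
    have hs3 : s < 1 / √3 := lt_of_le_of_lt hs.2 hz
    have hmem : (s : ℂ) * u ∈ ball (0 : ℂ) 1 := by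
      rw [mem_ball_zero_iff, hnorm s hs.1]
      exact lt_trans hs3 growth_aux_lt
    have hF : HasDerivAt F (deriv F ((s : ℂ) * u)) ((s : ℂ) * u) :=
      ((hG.diff _ hmem).differentiableAt (isOpen_ball.mem_nhds hmem)).hasDerivAt
    have hlin : HasDerivAt (fun w : ℂ => w * u) (1 * u) (s : ℂ) :=
      (hasDerivAt_id' (s : ℂ)).mul_const u
    have hcomp : HasDerivAt (fun w : ℂ => F (w * u)) (deriv F ((s : ℂ) * u) * (1 * u)) (s : ℂ) :=
      HasDerivAt.comp (h₂ := F) (s : ℂ) hF hlin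
    have hc2 : HasDerivAt (fun w : ℂ => (starRingEnd ℂ) u * F (w * u))
        ((starRingEnd ℂ) u * (deriv F ((s : ℂ) * u) * (1 * u))) (s : ℂ) :=
      hcomp.const_mul _
    have hval : (starRingEnd ℂ) u * (deriv F ((s : ℂ) * u) * (1 * u)) = deriv F ((s : ℂ) * u) := by
      calc (starRingEnd ℂ) u * (deriv F ((s : ℂ) * u) * (1 * u))
          = deriv F ((s : ℂ) * u) * ((starRingEnd ℂ) u * u) := by ring
        _ = deriv F ((s : ℂ) * u) := by rw [huu, mul_one]
    rw [hval] at hc2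
    have hre := hc2.real_of_complex
    exact hre.sub (growth_aux_deriv hs3)
  have hmono : MonotoneOn (fun s : ℝ => ((starRingEnd ℂ) u * F ((s : ℂ) * u)).re
        - s * (1 - 2 * s / √3) / (1 - s / √3) ^ 2) (Icc 0 x) := by
    apply monotoneOn_of_deriv_nonneg (convex_Icc 0 x)
    · intro s hs
      exact (key s hs).continuousAt.continuousWithinAt
    · intro s hs
      rw [interior_Icc] at hs
      exact (key s ⟨hs.1.le, hs.2.le⟩).differentiableAt.differentiableWithinAt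
    · intro s hs
      rw [interior_Icc] at hs
      rw [(key s ⟨hs.1.le, hs.2.le⟩).deriv]
      have hb := Spec.bonk hG (z := (s : ℂ) * u) (by
        rw [hnorm s hs.1.le]
        exact lt_trans hs.2 hz)
      rw [hnorm s hs.1.le] at hb
      linarith
  have hfin := hmono (left_mem_Icc.mpr hx0.le) (right_mem_Icc.mpr hx0.le) hx0.le
  simp only [Complex.ofReal_zero, zero_mul, hG.zero, mul_zero, Complex.zero_re, zero_div,
    sub_zero] at hfin
  rw [← hzu] at hfin
  have hle : ((starRingEnd ℂ) u * F z).re ≤ ‖F z‖ := by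
    calc ((starRingEnd ℂ) u * F z).re ≤ ‖(starRingEnd ℂ) u * F z‖ := Complex.re_le_norm _
      _ = ‖F z‖ := by rw [norm_mul, RCLike.norm_conj, hun, one_mul]
  linarith

end Pool.Agent.Helper82.LC
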